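import Pool.Agent.N718.LB.Stm

/-!
# Project LB (helper718), part MAINL (worker: helper514)
-/

set_option autoImplicit false

namespace Pool.Agent.N514.LB

open Pool.Agent.N718.LB Finset

noncomputable section

open Classical in
/-- the exceptional pairs in a class -/
def BB (κ M : ℕ) (γ δ : Fin 3 → ℤ) (s : ℤ) (α β : ℝ) (H : ℕ) :
    Finset ((Fin 3 → ℤ) × (Fin 3 → ℤ)) :=
  (V3 H ×ˢ V3 H).filter (fun v =>
      (∀ i, (M : ℤ) ∣ v.1 i - γ i ∧ (M : ℤ) ∣ v.2 i - δ i) ∧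
      (∀ i, ∀ z : ℝ, α < z → z < β → 0 < (s : ℝ) * (v.1 i + v.2 i * z)) ∧
      ¬ ∃ x y : ℤ, |(x : ℝ)| ≤ Real.log H ^ κ ∧ |(y : ℝ)| ≤ Real.log H ^ κ ∧
        ∃ P : Fin 3 → ℕ, ∀ i, (P i).Prime ∧ s * (x * v.1 i + y * v.2 i) = P i)

theorem two_le_log {H : ℕ} (hH : 8 ≤ H) : 2 ≤ Real.log H := by
  have h1 : (8 : ℝ) ≤ H := by exact_mod_cast hH
  have h2 : Real.exp 2 ≤ 8 := by
    have h3 : Real.exp 2 = Real.exp 1 * Real.exp 1 := by rw [← Real.exp_add]; norm_num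
    have h4 := Real.exp_one_lt_d9
    have h5 := Real.exp_pos 1
    rw [h3]
    nlinarith
  rw [Real.le_log_iff_exp_le (by linarith)]
  linarith

/-- small primes -/
theorem psol_of {κ H : ℕ} (hH : 8 ≤ H) {v w : Fin 3 → ℤ} (hv : ∀ i, |v i| ≤ (H : ℤ))
    (hw : ∀ i, |w i| ≤ (H : ℤ)) {s x y : ℤ} (hs : s = 1 ∨ s = -1)
    (hx : |(x : ℝ)| ≤ Real.log H ^ κ) (hy : |(y : ℝ)| ≤ Real.log H ^ κ) {P : Fin 3 → ℕ}
    (hP : ∀ i, (P i).Prime ∧ s * (x * v i + y * w i) = P i) :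
    PSol (H * Real.log H ^ (κ + 1)) (cr v w) := by
  have hl := two_le_log hH
  have hl0 : 0 ≤ Real.log H ^ κ := by positivity
  have hH0 : (0 : ℝ) ≤ H := Nat.cast_nonneg H
  refine ⟨P, fun i => ⟨(hP i).1, ?_⟩, ?_⟩
  · have h1 : (P i : ℝ) = (s : ℝ) * (x * v i + y * w i) := by
      have := (hP i).2
      exact_mod_cast this.symm
    have hs1 : |(s : ℝ)| = 1 := by rcases hs with rfl | rfl <;> simp
    have hvi : |(v i : ℝ)| ≤ H := by exact_mod_cast hv i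
    have hwi : |(w i : ℝ)| ≤ H := by exact_mod_cast hw i
    have h2 : (P i : ℝ) ≤ |(x : ℝ)| * |(v i : ℝ)| + |(y : ℝ)| * |(w i : ℝ)| := by
      calc (P i : ℝ) ≤ |(P i : ℝ)| := le_abs_self _
        _ = |(s : ℝ)| * |(x * v i + y * w i : ℝ)| := by rw [h1, abs_mul]
        _ = |(x * v i + y * w i : ℝ)| := by rw [hs1, one_mul]
        _ ≤ |(x * v i : ℝ)| + |(y * w i : ℝ)| := abs_add_le _ _
        _ = _ := by rw [abs_mul, abs_mul]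
    have h3 : |(x : ℝ)| * |(v i : ℝ)| ≤ Real.log H ^ κ * H :=
      mul_le_mul hx hvi (abs_nonneg _) hl0
    have h4 : |(y : ℝ)| * |(w i : ℝ)| ≤ Real.log H ^ κ * H :=
      mul_le_mul hy hwi (abs_nonneg _) hl0
    have h5 : Real.log H ^ κ * H * 2 ≤ Real.log H ^ κ * H * Real.log H :=
      mul_le_mul_of_nonneg_left hl (mul_nonneg hl0 hH0)
    calc (P i : ℝ) ≤ Real.log H ^ κ * H * 2 := by linarith
      _ ≤ Real.log H ^ κ * H * Real.log H := h5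
      _ = H * Real.log H ^ (κ + 1) := by rw [pow_succ]; ring
  · rw [← (hP 0).2, ← (hP 1).2, ← (hP 2).2]
    simp only [cr, Matrix.cons_val_zero, Matrix.cons_val_one, Matrix.cons_val_two, Matrix.head_cons,
      Matrix.tail_cons]
    ring

theorem coprime_congr {M : ℤ} {u v : ℤ} (h : M ∣ u - v) (hu : IsCoprime u M) : IsCoprime v M := by
  obtain ⟨k, hk⟩ := h
  have h1 : v = u + M * (-k) := by linarith
  rw [h1]
  exact IsCoprime.add_mul_left_left hu _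

theorem mainl_ (h1 : S_LAMT) (h2 : S_LOC) (h3 : S_SIGN) (h4 : S_INT) : S_MAINL := by
  classical
  obtain ⟨κ₀, C, hC0, hC⟩ := h1
  refine ⟨κ₀ + 1, fun η hη => ?_⟩
  obtain ⟨Z, HR, hZ, hR⟩ := h4 (η / 2) (by positivity)
  obtain ⟨Sg, hSg⟩ : ∃ Sg : Finset ℤ, Sg = ({1, -1} : Finset ℤ) := ⟨_, rfl⟩
  -- the choice of `W`
  obtain ⟨Kc, hKc⟩ : ∃ Kc : ℝ, Kc = C * (Z.card * Sg.card) := ⟨_, rfl⟩
  have hKc0 : 0 ≤ Kc := by rw [hKc]; positivity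
  obtain ⟨W, hW2, hWK⟩ : ∃ W : ℕ, 2 ≤ W ∧ Kc / W ≤ η / 2 := by
    obtain ⟨W₁, hW₁⟩ := exists_nat_gt (2 * Kc / η)
    refine ⟨2 + W₁, by omega, ?_⟩
    have h5 : (2 * Kc / η) < ((2 + W₁ : ℕ) : ℝ) := by
      refine hW₁.trans_le ?_
      exact_mod_cast Nat.le_add_left _ _
    have h6 : (0 : ℝ) < ((2 + W₁ : ℕ) : ℝ) := by
      exact_mod_cast (by omega : 0 < 2 + W₁)
    rw [div_lt_iff₀ hη] at h5
    rw [div_le_div_iff₀ h6 (by norm_num)]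
    linarith
  have hW0 : (0 : ℝ) < W := by exact_mod_cast (by omega : 0 < W)
  obtain ⟨M, hM⟩ : ∃ M : ℕ, M = ∏ p ∈ (Icc 1 W).filter Nat.Prime, p := ⟨_, rfl⟩
  have hM1 : 1 ≤ M := by
    rw [hM]
    exact Nat.one_le_iff_ne_zero.2 (prod_ne_zero_iff.2 fun p h5 => (mem_filter.1 h5).2.ne_zero)
  have hMp1 : ∀ p : ℕ, p.Prime → p ≤ W → p ∣ M := by
    intro p h5 h6
    rw [hM]
    refine dvd_prod_of_mem (fun p => p) ?_
    rw [mem_filter, mem_Icc]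
    exact ⟨⟨h5.one_lt.le, h6⟩, h5⟩
  have hMp2 : ∀ p : ℕ, p.Prime → p ∣ M → p ≤ W := by
    intro p h5 h6
    rw [hM] at h6
    obtain ⟨q, hq, h7⟩ := (Nat.Prime.prime h5).exists_mem_finset_dvd h6
    have h8 := (mem_filter.1 hq)
    have h9 := (Nat.prime_dvd_prime_iff_eq h5 h8.2).1 h7
    rw [h9]
    exact (mem_Icc.1 h8.1).2
  have h2M : 2 ∣ M := hMp1 2 Nat.prime_two hW2
  -- the chosen points
  obtain ⟨Gd, hGd⟩ : ∃ Gd : (Fin 3 → ℤ) × (Fin 3 → ℤ) → ℤ × ℤ → Prop,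
    ∀ g a, Gd g a ↔ ∀ i, IsCoprime (g.1 i * a.1 + g.2 i * a.2) (M : ℤ) :=
    ⟨_, fun _ _ => Iff.rfl⟩
  have ha : ∀ g, ∃ a : ℤ × ℤ, (∃ a', Gd g a') → Gd g a := by
    intro g
    by_cases h5 : ∃ a', Gd g a'
    · obtain ⟨a', h6⟩ := h5
      exact ⟨a', fun _ => h6⟩
    · exact ⟨(0, 0), fun h => absurd h h5⟩
  choose a haG using ha
  have hB : ∀ x : ((Fin 3 → ℤ) × (Fin 3 → ℤ)) × ((ℝ × ℝ) × ℤ), ∃ H₀ : ℕ,
      ((∃ a', Gd x.1 a') ∧ x.2.1.1 < x.2.1.2 ∧ (x.2.2 = 1 ∨ x.2.2 = -1)) →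
      ∀ H : ℕ, H₀ ≤ H → ((BB κ₀ M x.1.1 x.1.2 x.2.2 x.2.1.1 x.2.1.2 H).card : ℝ) ≤
        C / W * (((2 * H + 1 : ℕ) : ℝ) / M) ^ 6 := by
    intro x
    by_cases h5 : (∃ a', Gd x.1 a') ∧ x.2.1.1 < x.2.1.2 ∧ (x.2.2 = 1 ∨ x.2.2 = -1)
    · have h6 := (hGd _ _).1 (haG x.1 h5.1)
      obtain ⟨H₀, h7⟩ := hC W M (by omega) hM1 h2M hMp1 hMp2 (a x.1).1 (a x.1).2 x.2.1.1 x.2.1.2
        h5.2.1 x.1.1 x.1.2 x.2.2 h5.2.2 h6
      refine ⟨H₀, fun _ H hH => ?_⟩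
      have h8 := h7 H hH
      unfold BB
      convert h8
    · exact ⟨0, fun h => absurd h h5⟩
  choose HB hHB using hB
  obtain ⟨Gam, hGam⟩ : ∃ Gam : Finset ((Fin 3 → ℤ) × (Fin 3 → ℤ)),
    Gam = Fintype.piFinset (fun _ : Fin 3 => Ico (0 : ℤ) M) ×ˢ
      Fintype.piFinset (fun _ : Fin 3 => Ico (0 : ℤ) M) := ⟨_, rfl⟩
  have hGamc : Gam.card = M ^ 6 := by
    rw [hGam, card_product]
    simp only [Fintype.card_piFinset, prod_const, Int.card_Ico, sub_zero, Int.toNat_natCast,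
      card_univ, Fintype.card_fin]
    ring
  obtain ⟨idx, hidx⟩ : ∃ idx : Finset (((Fin 3 → ℤ) × (Fin 3 → ℤ)) × ((ℝ × ℝ) × ℤ)),
    idx = Gam ×ˢ (Z ×ˢ Sg) := ⟨_, rfl⟩
  obtain ⟨idx', hidx'⟩ : ∃ idx' : Finset (((Fin 3 → ℤ) × (Fin 3 → ℤ)) × ((ℝ × ℝ) × ℤ)),
    idx' = idx.filter (fun x =>
      (∃ a', Gd x.1 a') ∧ x.2.1.1 < x.2.1.2 ∧ (x.2.2 = 1 ∨ x.2.2 = -1)) := ⟨_, rfl⟩
  refine ⟨8 + HR + idx.sup HB, fun H hH => ?_⟩
  have hHR : HR ≤ H := by omega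
  have hH8 : 8 ≤ H := by omega
  have hHBH : ∀ x ∈ idx, HB x ≤ H := by
    intro x h5
    have := Finset.le_sup (f := HB) h5
    omega
  obtain ⟨T, hT⟩ : ∃ T : ℝ, T = ((2 * H + 1 : ℕ) : ℝ) ^ 6 := ⟨_, rfl⟩
  have hT0 : 0 ≤ T := by rw [hT]; positivity
  -- the exceptional sets
  obtain ⟨A2, hA2⟩ : ∃ A2 : Finset ((Fin 3 → ℤ) × (Fin 3 → ℤ)),
    A2 = (V3 H ×ˢ V3 H).filter (fun v =>
      (∃ (s : ℤ) (t : ℝ), (s = 1 ∨ s = -1) ∧ ∀ i, 0 < (s : ℝ) * (v.1 i + v.2 i * t)) ∧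
      ¬ ∃ z ∈ Z, ∃ s : ℤ, (s = 1 ∨ s = -1) ∧
        ∀ i, ∀ t : ℝ, z.1 < t → t < z.2 → 0 < (s : ℝ) * (v.1 i + v.2 i * t)) := ⟨_, rfl⟩
  obtain ⟨A3, hA3⟩ : ∃ A3 : Finset ((Fin 3 → ℤ) × (Fin 3 → ℤ)),
    A3 = idx'.biUnion (fun x => BB κ₀ M x.1.1 x.1.2 x.2.2 x.2.1.1 x.2.1.2 H) := ⟨_, rfl⟩
  have hc2 : (A2.card : ℝ) ≤ η / 2 * T := by
    rw [hA2, hT]
    have h5 := hR H hHR
    convert h5
  have hc3 : (A3.card : ℝ) ≤ η / 2 * T := by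
    have h5 : (A3.card : ℝ) ≤ ∑ x ∈ idx',
        ((BB κ₀ M x.1.1 x.1.2 x.2.2 x.2.1.1 x.2.1.2 H).card : ℝ) := by
      rw [hA3]
      exact_mod_cast card_biUnion_le
    refine h5.trans ?_
    have h6 : ∀ x ∈ idx', ((BB κ₀ M x.1.1 x.1.2 x.2.2 x.2.1.1 x.2.1.2 H).card : ℝ) ≤
        C / W * (((2 * H + 1 : ℕ) : ℝ) / M) ^ 6 := by
      intro x h7
      rw [hidx'] at h7
      have h8 := mem_filter.1 h7
      exact hHB x h8.2 H (hHBH x h8.1)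
    refine (sum_le_sum h6).trans ?_
    rw [sum_const, nsmul_eq_mul]
    have h7 : (idx'.card : ℝ) ≤ (M : ℝ) ^ 6 * (Z.card * Sg.card) := by
      have h8 : idx'.card ≤ M ^ 6 * (Z.card * Sg.card) := by
        rw [hidx']
        refine (card_filter_le _ _).trans ?_
        rw [hidx, card_product, card_product, hGamc]
      exact_mod_cast h8
    have hM0 : (0 : ℝ) < (M : ℝ) ^ 6 := by
      have : (0 : ℝ) < M := by exact_mod_cast hM1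
      positivity
    have h9 : 0 ≤ C / W * (((2 * H + 1 : ℕ) : ℝ) / M) ^ 6 := by positivity
    refine (mul_le_mul_of_nonneg_right h7 h9).trans ?_
    have h10 : (M : ℝ) ^ 6 * (Z.card * Sg.card) *
        (C / W * (((2 * H + 1 : ℕ) : ℝ) / M) ^ 6) = Kc / W * T := by
      rw [div_pow, hKc, hT]
      field_simp
    rw [h10]
    exact mul_le_mul_of_nonneg_right hWK hT0
  -- the covering
  have hsub : (V3 H ×ˢ V3 H).filter (fun v => Adm (cr v.1 v.2) ∧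
      ¬ PSol (H * Real.log H ^ (κ₀ + 1)) (cr v.1 v.2)) ⊆ A2 ∪ A3 := by
    intro v hv
    obtain ⟨hvB, hvA, hvP⟩ := mem_filter.1 hv
    by_cases h6 : ∃ z ∈ Z, ∃ s : ℤ, (s = 1 ∨ s = -1) ∧
        ∀ i, ∀ t : ℝ, z.1 < t → t < z.2 → 0 < (s : ℝ) * (v.1 i + v.2 i * t)
    swap
    · refine mem_union_left _ ?_
      rw [hA2, mem_filter]
      exact ⟨hvB, h3 v.1 v.2 hvA.1 hvA.2.1 hvA.2.2.1, h6⟩
    refine mem_union_right _ ?_
    obtain ⟨z, hz, s, hs, hpos⟩ := h6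
    obtain ⟨a₀, a₁, hloc⟩ := h2 M hM1 v.1 v.2 hvA.2.2.2.1 hvA.2.2.2.2
    -- the class
    obtain ⟨γ, hγ⟩ : ∃ γ : Fin 3 → ℤ, ∀ j, γ j = v.1 j % M := ⟨_, fun _ => rfl⟩
    obtain ⟨δ, hδ⟩ : ∃ δ : Fin 3 → ℤ, ∀ j, δ j = v.2 j % M := ⟨_, fun _ => rfl⟩
    have hM0' : (0 : ℤ) < M := by exact_mod_cast hM1
    have hγG : (γ, δ) ∈ Gam := by
      rw [hGam, mem_product, Fintype.mem_piFinset, Fintype.mem_piFinset]
      constructor
      · intro k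
        show γ k ∈ Ico (0 : ℤ) M
        rw [mem_Ico, hγ]
        exact ⟨Int.emod_nonneg _ hM0'.ne', Int.emod_lt_of_pos _ hM0'⟩
      · intro k
        show δ k ∈ Ico (0 : ℤ) M
        rw [mem_Ico, hδ]
        exact ⟨Int.emod_nonneg _ hM0'.ne', Int.emod_lt_of_pos _ hM0'⟩
    have hcγ : ∀ j, (M : ℤ) ∣ v.1 j - γ j := by
      intro j
      rw [hγ]
      exact Int.dvd_self_sub_emod
    have hcδ : ∀ j, (M : ℤ) ∣ v.2 j - δ j := by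
      intro j
      rw [hδ]
      exact Int.dvd_self_sub_emod
    have hex : ∃ a', Gd (γ, δ) a' := by
      refine ⟨(a₀, a₁), (hGd _ _).2 fun i => ?_⟩
      refine coprime_congr (u := v.1 i * a₀ + v.2 i * a₁) ?_ (hloc i)
      have h10 : v.1 i * a₀ + v.2 i * a₁ - (γ i * a₀ + δ i * a₁) =
          (v.1 i - γ i) * a₀ + (v.2 i - δ i) * a₁ := by ring
      rw [h10]
      exact dvd_add ((hcγ i).mul_right _) ((hcδ i).mul_right _)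
    have hsSg : s ∈ Sg := by
      rw [hSg, mem_insert, mem_singleton]
      exact hs
    have hmemV := mem_product.1 hvB
    have habs : ∀ u ∈ V3 H, ∀ i, |u i| ≤ (H : ℤ) := by
      intro u hu i
      unfold V3 at hu
      rw [Fintype.mem_piFinset] at hu
      have := mem_Icc.1 (hu i)
      exact abs_le.2 this
    rw [hA3, mem_biUnion]
    refine ⟨((γ, δ), (z, s)), ?_, ?_⟩
    · rw [hidx', mem_filter, hidx]
      exact ⟨mem_product.2 ⟨hγG, mem_product.2 ⟨hz, hsSg⟩⟩, hex, hZ z hz, hs⟩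
    · unfold BB
      rw [mem_filter]
      refine ⟨hvB, fun i => ⟨hcγ i, hcδ i⟩, hpos, ?_⟩
      rintro ⟨x, y, hx, hy, P, hP⟩
      exact hvP (psol_of hH8 (habs _ hmemV.1) (habs _ hmemV.2) hs hx hy hP)
  have hfin : (((V3 H ×ˢ V3 H).filter (fun v => Adm (cr v.1 v.2) ∧
      ¬ PSol (H * Real.log H ^ (κ₀ + 1)) (cr v.1 v.2))).card : ℝ) ≤ (A2.card : ℝ) + A3.card := by
    have h5 := (card_le_card hsub).trans (card_union_le _ _)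
    exact_mod_cast h5
  rw [← hT]
  have h6 : η / 2 * T + η / 2 * T ≤ η * T := by nlinarith [mul_nonneg hη.le hT0]
  have h7 := hfin.trans (add_le_add hc2 hc3)
  convert h7.trans h6

end

end Pool.Agent.N514.LB
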